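import Pool.Agent.DLM.FIN

/-!
# MP_7ec1bf_pr: the modulus of continuity of the directed landscape geodesic is sharp

For every directed landscape there is a constant `c > 0` such that almost surely every directed geodesic from `(0, 0)`
to `(0, 1)` has `M_0 ≥ c`. In particular `M_0 > 0` almost surely.
-/

set_option autoImplicit false

open MeasureTheory ProbabilityTheory Filter Topology

namespace Pool.Agent.Results.MP_7ec1bf_pr.GeodesicModulusSharp

open Pool.Agent.DLM

/-- For every directed landscape there is a constant `c > 0` such that almost surely every directed geodesic from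
`(0, 0)` to `(0, 1)` has `M_0 ≥ c`. -/
theorem result {Ω₀ Ω : Type*} [MeasurableSpace Ω₀] [MeasurableSpace Ω] {P₀ : Measure Ω₀} [IsProbabilityMeasure P₀]
    {S₀ : ℝ → ℝ → Ω₀ → ℝ} {P : Measure Ω} [IsProbabilityMeasure P] {L : ℝ → ℝ → ℝ → ℝ → Ω → ℝ}
    (hS : IsAirySheet P₀ S₀) (hL : IsDL P₀ S₀ P L) :
    ∃ c : ℝ, 0 < c ∧ ∀ᵐ ω ∂P, ∀ p : ℝ → ℝ, IsGeod (fun x s y t => L x s y t ω) p → ENNReal.ofReal c ≤ M0 p :=
  dlm_main hS hL

end Pool.Agent.Results.MP_7ec1bf_pr.GeodesicModulusSharp
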